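import Mathlib
import Pool.Agent.N753.DR.Stm2
import Pool.Agent.N459.DR.Red

/-!
# Project CV, part REDC: primitive integral coordinates of a point of projective space
(helper498, for helper753; adapted from Pool/Agent/N459/DR/Red.lean)
-/

set_option autoImplicit false

namespace Pool.Agent.N498.CV

open NumberField Module Height Finset IsDedekindDomain
open Pool.Agent.N459.DR (class_rep coord_bd prod_mk prod_norm)

theorem height_vec {K : Type} [Field K] [NumberField K] {m : ℕ} (y : Fin m → 𝓞 K) (hy : y ≠ 0) :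
    ∏ σ : K →+* ℂ, (⨆ i, ‖σ (y i : K)‖) =
      mulHeight (fun i => (y i : K)) * (Ideal.absNorm (Ideal.span (Set.range y)) : ℝ) := by
  have hx' : (fun i => (y i : K)) ≠ 0 := by
    intro h
    apply hy
    funext i
    exact RingOfIntegers.coe_eq_zero_iff.1 (congrFun h i)
  have h1 := absNorm_mul_finprod_finitePlace_eq_one hy
  rw [NumberField.mulHeight_eq hx']
  have h0 := prod_mk (M := K) (fun v : InfinitePlace K => ⨆ i, v (y i : K))
  rw [h0, mul_assoc, mul_comm (∏ᶠ _ : FinitePlace K, _), h1, mul_one]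
  rfl

open Pool.Agent.N753.DR in
/-- **CV/REDC** -/
theorem t : StmRedC := by
  classical
  intro K _ _ m
  obtain ⟨R, hR0, hR⟩ := class_rep K
  obtain ⟨C5, hC5, hcoord⟩ := coord_bd K
  obtain ⟨C3, hC3, hbal⟩ := Pool.Agent.Y406.KH.bal K
  obtain ⟨Nm, hNm⟩ : ∃ Nm : ℝ, Nm = (∑ 𝔞 ∈ R, (Ideal.absNorm 𝔞 : ℝ)) + 1 := ⟨_, rfl⟩
  have hNmle : ∀ 𝔞 ∈ R, (Ideal.absNorm 𝔞 : ℝ) ≤ Nm := by
    intro 𝔞 h𝔞
    have h := Finset.single_le_sum (f := fun 𝔞 : Ideal (𝓞 K) => (Ideal.absNorm 𝔞 : ℝ))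
      (fun 𝔞 _ => by positivity) h𝔞
    linarith
  have hNm0 : 0 < Nm := by
    have : (0 : ℝ) ≤ ∑ 𝔞 ∈ R, (Ideal.absNorm 𝔞 : ℝ) := by positivity
    linarith
  obtain ⟨n, hn⟩ : ∃ n : ℕ, n = finrank ℚ K := ⟨_, rfl⟩
  have hn0 : 0 < n := by
    rw [hn]
    exact Module.finrank_pos
  have hn0' : (0 : ℝ) < n := by exact_mod_cast hn0
  -- the bad primes
  have hfin : ∀ 𝔞 ∈ R, {v : HeightOneSpectrum (𝓞 K) | v.asIdeal ∣ 𝔞}.Finite := fun 𝔞 h𝔞 =>
    Ideal.finite_factors (hR0 𝔞 h𝔞)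
  have hfin2 : (⋃ 𝔞 ∈ R, {v : HeightOneSpectrum (𝓞 K) | v.asIdeal ∣ 𝔞}).Finite :=
    Set.Finite.biUnion R.finite_toSet hfin
  obtain ⟨C4, hC4⟩ : ∃ C4 : ℝ, C4 = Real.log Nm / n + C3 := ⟨_, rfl⟩
  refine ⟨hfin2.toFinset, C5 * Real.exp C4, by positivity, ?_⟩
  intro x hx0
  -- clearing denominators
  obtain ⟨⟨e, he⟩, hint⟩ := IsLocalization.exist_integer_multiples_of_finite
    (nonZeroDivisors (𝓞 K)) x
  have he0 : e ≠ 0 := nonZeroDivisors.ne_zero he
  have heK : (e : K) ≠ 0 := fun h => he0 (RingOfIntegers.coe_eq_zero_iff.1 h)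
  choose y hy using hint
  have hyx : ∀ i, (y i : K) = (e : K) * x i := by
    intro i
    have h := hy i
    rw [Algebra.smul_def] at h
    exact h
  have hyv : (fun i => (y i : K)) = (e : K) • x := by
    funext i
    rw [hyx, Pi.smul_apply, smul_eq_mul]
  have hy0 : y ≠ 0 := by
    intro h
    apply hx0
    funext i
    have h1 := hyx i
    rw [congrFun h i] at h1
    have h2 : (e : K) * x i = 0 := by
      rw [← h1]
      rfl
    exact (mul_eq_zero.1 h2).resolve_left heK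
  obtain ⟨i₀, hi₀⟩ := Function.ne_iff.1 hy0
  have hi₀' : y i₀ ≠ 0 := hi₀
  have : Nonempty (Fin m) := ⟨i₀⟩
  -- the ideal generated by the coordinates
  obtain ⟨I, hI⟩ : ∃ I : Ideal (𝓞 K), I = Ideal.span (Set.range y) := ⟨_, rfl⟩
  have hI0 : I ≠ ⊥ := by
    intro h
    have h1 : y i₀ ∈ I := by
      rw [hI]
      exact Ideal.subset_span ⟨_, rfl⟩
    rw [h] at h1
    exact hi₀' (by simpa using h1)
  have hNI : (0 : ℝ) < (Ideal.absNorm I : ℝ) := by
    have := Ideal.absNorm_ne_zero_of_nonZeroDivisors ⟨I, mem_nonZeroDivisors_of_ne_zero hI0⟩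
    have h2 : 0 < Ideal.absNorm I := Nat.pos_of_ne_zero this
    exact_mod_cast h2
  obtain ⟨𝔞, h𝔞, a, g, ha, hg, hag⟩ := hR I hI0
  have haK : (a : K) ≠ 0 := fun h => ha (RingOfIntegers.coe_eq_zero_iff.1 h)
  have hgK : (g : K) ≠ 0 := fun h => hg (RingOfIntegers.coe_eq_zero_iff.1 h)
  -- the new coefficients
  have hex : ∀ i, ∃ c' : 𝓞 K, a * y i = g * c' ∧ c' ∈ 𝔞 := by
    intro i
    have h1 : a * y i ∈ Ideal.span {g} * 𝔞 := by
      rw [← hag]
      refine Ideal.mul_mem_mul (Ideal.subset_span rfl) ?_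
      rw [hI]
      exact Ideal.subset_span ⟨i, rfl⟩
    obtain ⟨c', hc', h2⟩ := Ideal.mem_span_singleton_mul.1 h1
    exact ⟨c', h2.symm, hc'⟩
  choose c' hc' hc'𝔞 using hex
  -- the functions to be balanced
  obtain ⟨QQ, hQQ⟩ : ∃ QQ : (K →+* ℂ) → ℝ, ∀ σ, QQ σ = ⨆ i, ‖σ (y i : K)‖ :=
    ⟨_, fun _ => rfl⟩
  have hQle : ∀ σ i, ‖σ (y i : K)‖ ≤ QQ σ := by
    intro σ i
    rw [hQQ]
    exact Finite.le_ciSup_of_le i le_rfl
  have hQQ0 : ∀ σ, 0 < QQ σ := by
    intro σ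
    refine lt_of_lt_of_le ?_ (hQle σ i₀)
    rw [norm_pos_iff]
    exact (map_ne_zero σ).2 (fun h => hi₀' (RingOfIntegers.coe_eq_zero_iff.1 h))
  have hσa : ∀ σ : K →+* ℂ, 0 < ‖σ a‖ := fun σ => by
    rw [norm_pos_iff]
    exact (map_ne_zero σ).2 haK
  have hσg : ∀ σ : K →+* ℂ, 0 < ‖σ g‖ := fun σ => by
    rw [norm_pos_iff]
    exact (map_ne_zero σ).2 hgK
  obtain ⟨L, hL⟩ : ∃ L : (K →+* ℂ) → ℝ, ∀ σ, L σ = Real.log (QQ σ) +
      Real.log ‖σ a‖ - Real.log ‖σ g‖ := ⟨_, fun _ => rfl⟩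
  have hLconj : ∀ σ, L (ComplexEmbedding.conjugate σ) = L σ := by
    intro σ
    rw [hL, hL, hQQ, hQQ]
    simp [ComplexEmbedding.conjugate_coe_eq]
  obtain ⟨u, hu⟩ := hbal L hLconj
  have hsum : ∑ σ, L σ ≤ logHeight x + Real.log Nm := by
    have e1 : ∑ σ : K →+* ℂ, Real.log (QQ σ) =
        logHeight x + Real.log (Ideal.absNorm I : ℝ) := by
      rw [← Real.log_prod (fun σ _ => (hQQ0 σ).ne')]
      simp only [hQQ]
      rw [height_vec y hy0, hyv, mulHeight_smul_eq_mulHeight x heK, ← hI,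
        Real.log_mul (mulHeight_ne_zero x) hNI.ne']
      rfl
    have e2 : ∑ σ : K →+* ℂ, Real.log ‖σ a‖ =
        Real.log (Ideal.absNorm (Ideal.span {a}) : ℝ) := by
      rw [← Real.log_prod (fun σ _ => (hσa σ).ne'), prod_norm]
    have e3 : ∑ σ : K →+* ℂ, Real.log ‖σ g‖ =
        Real.log (Ideal.absNorm (Ideal.span {g}) : ℝ) := by
      rw [← Real.log_prod (fun σ _ => (hσg σ).ne'), prod_norm]
    have e5 : ∑ σ, L σ = (logHeight x + Real.log (Ideal.absNorm I : ℝ)) +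
        Real.log (Ideal.absNorm (Ideal.span {a}) : ℝ) -
        Real.log (Ideal.absNorm (Ideal.span {g}) : ℝ) := by
      simp only [hL]
      rw [Finset.sum_sub_distrib, Finset.sum_add_distrib, e1, e2, e3]
    have hNa : (0 : ℝ) < (Ideal.absNorm (Ideal.span {a}) : ℝ) := by
      rw [← prod_norm]
      exact Finset.prod_pos fun σ _ => hσa σ
    have hNg : (0 : ℝ) < (Ideal.absNorm (Ideal.span {g}) : ℝ) := by
      rw [← prod_norm]
      exact Finset.prod_pos fun σ _ => hσg σ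
    have hN𝔞 : (0 : ℝ) < (Ideal.absNorm 𝔞 : ℝ) := by
      have := Ideal.absNorm_ne_zero_of_nonZeroDivisors
        ⟨𝔞, mem_nonZeroDivisors_of_ne_zero (hR0 𝔞 h𝔞)⟩
      have h2 : 0 < Ideal.absNorm 𝔞 := Nat.pos_of_ne_zero this
      exact_mod_cast h2
    have e6 : (Ideal.absNorm (Ideal.span {a}) : ℝ) * (Ideal.absNorm I : ℝ) =
        (Ideal.absNorm (Ideal.span {g}) : ℝ) * (Ideal.absNorm 𝔞 : ℝ) := by
      have h1 := congrArg Ideal.absNorm hag
      rw [map_mul, map_mul] at h1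
      exact_mod_cast h1
    have e7 := congrArg Real.log e6
    rw [Real.log_mul hNa.ne' hNI.ne', Real.log_mul hNg.ne' hN𝔞.ne'] at e7
    have e9 : Real.log (Ideal.absNorm 𝔞 : ℝ) ≤ Real.log Nm :=
      Real.log_le_log hN𝔞 (hNmle 𝔞 h𝔞)
    rw [e5]
    linarith
  have huK : ((u : 𝓞 K) : K) ≠ 0 := by
    intro h
    exact u.ne_zero (RingOfIntegers.coe_eq_zero_iff.1 h)
  have hbound : ∀ (σ : K →+* ℂ) (i : Fin m), ‖σ (((u : 𝓞 K) * c' i : 𝓞 K) : K)‖ ≤
      Real.exp C4 * Real.exp (logHeight x / n) := by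
    intro σ i
    have h1 : ‖σ (c' i)‖ * ‖σ g‖ = ‖σ a‖ * ‖σ (y i)‖ := by
      have h5 : (g : K) * (c' i : K) = (a : K) * (y i : K) := by
        have := congrArg (fun z : 𝓞 K => (z : K)) (hc' i)
        simp only [map_mul] at this
        exact this.symm
      have h6 := congrArg (fun z : K => ‖σ z‖) h5
      simp only [map_mul, norm_mul] at h6
      rw [mul_comm]
      exact h6
    have h2 : ‖σ (c' i)‖ ≤ Real.exp (L σ) := by
      rw [hL, Real.exp_sub, Real.exp_add,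
        Real.exp_log (hQQ0 σ), Real.exp_log (hσa σ), Real.exp_log (hσg σ),
        le_div_iff₀ (hσg σ), h1]
      calc ‖σ a‖ * ‖σ (y i)‖ ≤ ‖σ a‖ * QQ σ :=
            mul_le_mul_of_nonneg_left (hQle σ i) (hσa σ).le
        _ = QQ σ * ‖σ a‖ := by ring
    have hσu : 0 < ‖σ ((u : 𝓞 K) : K)‖ := by
      rw [norm_pos_iff]
      exact (map_ne_zero σ).2 huK
    have h4 : ‖σ (((u : 𝓞 K) * c' i : 𝓞 K) : K)‖ = ‖σ ((u : 𝓞 K) : K)‖ * ‖σ (c' i)‖ := by
      rw [← norm_mul, ← map_mul]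
      rfl
    rw [h4]
    calc ‖σ ((u : 𝓞 K) : K)‖ * ‖σ (c' i)‖
        ≤ ‖σ ((u : 𝓞 K) : K)‖ * Real.exp (L σ) := mul_le_mul_of_nonneg_left h2 hσu.le
      _ = Real.exp (Real.log ‖σ ((u : 𝓞 K) : K)‖ + L σ) := by
          rw [Real.exp_add, Real.exp_log hσu]
      _ ≤ Real.exp (C4 + logHeight x / n) := by
          apply Real.exp_le_exp.2
          refine (hu σ).trans ?_
          rw [hC4, ← hn]
          have h5 : (∑ τ, L τ) / (n : ℝ) ≤ (logHeight x + Real.log Nm) / n :=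
            div_le_div_of_nonneg_right hsum hn0'.le
          rw [add_div] at h5
          linarith
      _ = Real.exp C4 * Real.exp (logHeight x / n) := Real.exp_add _ _
  refine ⟨fun i => (u : 𝓞 K) * c' i, ((u : 𝓞 K) : K) * ((a : K) / g) * (e : K), ?_, ?_, ?_, ?_⟩
  · exact mul_ne_zero (mul_ne_zero huK (div_ne_zero haK hgK)) heK
  · intro i
    have h1 : (g : K) * (c' i : K) = (a : K) * (y i : K) := by
      have := congrArg (fun z : 𝓞 K => (z : K)) (hc' i)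
      simp only [map_mul] at this
      exact this.symm
    rw [hyx i] at h1
    have h2 : (c' i : K) = (a : K) / g * ((e : K) * x i) := by
      rw [div_mul_eq_mul_div, eq_div_iff hgK, mul_comm, h1]
    have h3 : (((u : 𝓞 K) * c' i : 𝓞 K) : K) = ((u : 𝓞 K) : K) * (c' i : K) := rfl
    rw [h3, h2]
    ring
  · intro v hv
    by_contra hcon
    push Not at hcon
    apply hv
    rw [Set.Finite.mem_toFinset]
    simp only [Set.mem_iUnion]
    refine ⟨𝔞, h𝔞, ?_⟩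
    change v.asIdeal ∣ 𝔞
    have h1 : ∀ i, c' i ∈ v.asIdeal := by
      intro i
      exact (Ideal.unit_mul_mem_iff_mem v.asIdeal u.isUnit).1 (hcon i)
    have h2 : Ideal.span {a} * I ≤ Ideal.span {g} * v.asIdeal := by
      rw [hI, Ideal.span_mul_span', Ideal.span_le]
      rintro _ ⟨a', ha', z, ⟨i, rfl⟩, rfl⟩
      rw [Set.mem_singleton_iff] at ha'
      subst ha'
      simp only
      rw [hc' i]
      exact Ideal.mul_mem_mul (Ideal.subset_span rfl) (h1 i)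
    rw [hag] at h2
    have hgs : Ideal.span {g} ≠ (⊥ : Ideal (𝓞 K)) := mt Submodule.span_singleton_eq_bot.mp hg
    rw [← Ideal.dvd_iff_le] at h2
    exact (mul_dvd_mul_iff_left hgs).1 h2
  · intro i
    have hB : 0 ≤ Real.exp C4 * Real.exp (logHeight x / n) := by positivity
    have h1 := hcoord ((u : 𝓞 K) * c' i) _ hB (fun σ => hbound σ i)
    rw [← hn, mul_assoc]
    have h2 : sz ((u : 𝓞 K) * c' i) ≤
        ⌊C5 * (Real.exp C4 * Real.exp (logHeight x / n))⌋₊ := by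
      unfold sz
      refine Finset.sup_le fun j _ => ?_
      apply Nat.le_floor
      rw [Nat.cast_natAbs, Int.cast_abs]
      exact h1 j
    have h3 : ((sz ((u : 𝓞 K) * c' i) : ℕ) : ℝ) ≤
        ((⌊C5 * (Real.exp C4 * Real.exp (logHeight x / n))⌋₊ : ℕ) : ℝ) := by
      exact_mod_cast h2
    exact h3.trans (Nat.floor_le (by positivity))

end Pool.Agent.N498.CV
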